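import Mathlib

/-!
# MP_f406e2_lc: the surface measure of the sphere, polynomials
-/

noncomputable section

namespace Pool.Agent.MP_f406e2_lc_SP

open MeasureTheory Set Metric Topology
open scoped Pointwise

variable {d : ℕ}

/-- the space -/
abbrev En (d : ℕ) : Type := EuclideanSpace ℝ (Fin d)

/-- the unit sphere -/
abbrev Sp (d : ℕ) : Type := ↥(sphere (0 : En d) 1)

/-- the surface measure -/
abbrev sig (d : ℕ) : Measure (Sp d) := (volume : Measure (En d)).toSphere

/-- the homeomorphism of the sphere given by an isometry -/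
def sp (U : En d ≃ₗᵢ[ℝ] En d) : Sp d ≃ₜ Sp d where
  toFun x := ⟨U x.1, by
    have h := x.2
    rw [mem_sphere_zero_iff_norm] at h ⊢
    rw [U.norm_map, h]⟩
  invFun x := ⟨U.symm x.1, by
    have h := x.2
    rw [mem_sphere_zero_iff_norm] at h ⊢
    rw [U.symm.norm_map, h]⟩
  left_inv x := Subtype.ext (U.symm_apply_apply x.1)
  right_inv x := Subtype.ext (U.apply_symm_apply x.1)
  continuous_toFun := by
    apply Continuous.subtype_mk
    exact U.continuous.comp continuous_subtype_val
  continuous_invFun := by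
    apply Continuous.subtype_mk
    exact U.symm.continuous.comp continuous_subtype_val

lemma sp_coe (U : En d ≃ₗᵢ[ℝ] En d) (x : Sp d) : (sp U x).1 = U x.1 := rfl

lemma sp_preserving (U : En d ≃ₗᵢ[ℝ] En d) : MeasurePreserving (sp U) (sig d) (sig d) := by
  refine ⟨(sp U).continuous.measurable, ?_⟩
  refine Measure.ext fun s hs => ?_
  rw [Measure.map_apply (sp U).continuous.measurable hs, Measure.toSphere_apply' _ hs,
    Measure.toSphere_apply' _ ((sp U).continuous.measurable hs)]
  congr 1
  have h1 : (Ioo (0 : ℝ) 1 • ((↑) '' (sp U ⁻¹' s)) : Set (En d)) =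
      U ⁻¹' (Ioo (0 : ℝ) 1 • ((↑) '' s)) := by
    ext v
    simp only [mem_smul, mem_preimage, mem_image]
    constructor
    · rintro ⟨c, hc, _, ⟨x, hx, rfl⟩, rfl⟩
      exact ⟨c, hc, _, ⟨_, hx, rfl⟩, by rw [sp_coe, map_smul]⟩
    · rintro ⟨c, hc, _, ⟨x, hx, rfl⟩, h⟩
      refine ⟨c, hc, _, ⟨(sp U).symm x, ?_, rfl⟩, ?_⟩
      · rw [Homeomorph.apply_symm_apply]
        exact hx
      · apply U.injective
        rw [← h, map_smul]
        congr 1
        exact U.apply_symm_apply x.1
  rw [h1]
  have h2 : MeasurePreserving U.toHomeomorph.toMeasurableEquiv (volume : Measure (En d)) volume :=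
    U.measurePreserving
  exact h2.measure_preimage_equiv _

/-- the polynomial functions on the sphere -/
def ev (d : ℕ) : MvPolynomial (Fin d) ℝ →ₐ[ℝ] C(Sp d, ℝ) :=
  MvPolynomial.aeval fun j => ⟨fun x => x.1 j, by
    have h1 : Continuous fun v : En d => v j := by fun_prop
    exact h1.comp continuous_subtype_val⟩

lemma ev_apply (p : MvPolynomial (Fin d) ℝ) (x : Sp d) :
    ev d p x = MvPolynomial.eval (fun j => x.1 j) p := by
  induction p using MvPolynomial.induction_on with
  | C a => simp [ev]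
  | add p q hp hq => rw [map_add, map_add, ContinuousMap.add_apply, hp, hq]
  | mul_X p j hp =>
    rw [map_mul, map_mul, ContinuousMap.mul_apply, hp]
    simp [ev]

lemma ev_dense : (ev d).range.topologicalClosure = ⊤ := by
  apply ContinuousMap.subalgebra_topologicalClosure_eq_top_of_separatesPoints
  intro x y hxy
  obtain ⟨j, hj⟩ : ∃ j, x.1 j ≠ y.1 j := by
    by_contra h
    push Not at h
    exact hxy (Subtype.ext (PiLp.ext h))
  refine ⟨_, ⟨ev d (MvPolynomial.X j), ⟨MvPolynomial.X j, rfl⟩, rfl⟩, ?_⟩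
  show ev d (MvPolynomial.X j) x ≠ ev d (MvPolynomial.X j) y
  rw [ev_apply, ev_apply, MvPolynomial.eval_X, MvPolynomial.eval_X]
  exact hj

lemma integrable_cont (μ : Measure (Sp d)) [IsFiniteMeasure μ] (f : C(Sp d, ℝ)) :
    Integrable f μ :=
  f.continuous.integrable_of_hasCompactSupport (HasCompactSupport.of_compactSpace _)

lemma cont_int (μ : Measure (Sp d)) [IsFiniteMeasure μ] :
    Continuous fun f : C(Sp d, ℝ) => ∫ x, f x ∂μ := by
  apply LipschitzWith.continuous (K := (μ.real univ).toNNReal)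
  refine LipschitzWith.of_dist_le_mul fun f g => ?_
  rw [Real.coe_toNNReal _ measureReal_nonneg, Real.dist_eq,
    ← integral_sub (integrable_cont μ f) (integrable_cont μ g), ← Real.norm_eq_abs, mul_comm]
  refine norm_integral_le_of_norm_le_const (Filter.Eventually.of_forall fun x => ?_)
  rw [← dist_eq_norm]
  exact ContinuousMap.dist_apply_le_dist x

/-- finite measures on the sphere are determined by the integrals of the polynomials -/
theorem ext_poly (μ ν : Measure (Sp d)) [IsFiniteMeasure μ] [IsFiniteMeasure ν]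
    (h : ∀ p : MvPolynomial (Fin d) ℝ, ∫ x, ev d p x ∂μ = ∫ x, ev d p x ∂ν) : μ = ν := by
  apply ext_of_forall_integral_eq_of_IsFiniteMeasure
  intro f
  have hcl : IsClosed {g : C(Sp d, ℝ) | ∫ x, g x ∂μ = ∫ x, g x ∂ν} :=
    isClosed_eq (cont_int μ) (cont_int ν)
  have hsub : ((ev d).range : Set C(Sp d, ℝ)) ⊆ {g | ∫ x, g x ∂μ = ∫ x, g x ∂ν} := by
    rintro _ ⟨p, rfl⟩
    exact h p
  have h1 : f.toContinuousMap ∈ (ev d).range.topologicalClosure := by
    rw [ev_dense]
    trivial
  exact closure_minimal hsub hcl h1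

/-- **The measure theoretic part.** -/
theorem no_division {m : ℕ} (hd : 1 ≤ d) (hm : 2 ≤ m) (U : Fin m → En d ≃ₗᵢ[ℝ] En d)
    (T : MvPolynomial (Fin d) ℝ → MvPolynomial (Fin d) ℝ)
    (hT : ∀ p x, ev d (T p) x = ∑ i, ev d p (sp (U i) x)) (hs : Function.Surjective T)
    (A : Set (Sp d)) (hA : NullMeasurableSet A (sig d)) :
    ¬ ∀ᵐ x ∂(sig d), ∃! i : Fin m, x ∈ sp (U i) '' A := by
  intro hae
  classical
  -- the integrals over the pieces
  have hpiece : ∀ (p : MvPolynomial (Fin d) ℝ) (i : Fin m),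
      ∫ x, (sp (U i) '' A).indicator (ev d p) x ∂(sig d) =
        ∫ x in A, ev d p (sp (U i) x) ∂(sig d) := by
    intro p i
    rw [← (sp_preserving (U i)).integral_comp (sp (U i)).measurableEmbedding,
      ← integral_indicator₀ hA]
    refine integral_congr_ae (Filter.Eventually.of_forall fun x => ?_)
    simp only [indicator]
    by_cases hx : x ∈ A
    · rw [if_pos hx, if_pos (mem_image_of_mem _ hx)]
    · rw [if_neg hx, if_neg]
      rintro ⟨y, hy, h⟩
      exact hx ((sp (U i)).injective h ▸ hy)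
  have hint : ∀ (p : MvPolynomial (Fin d) ℝ) (i : Fin m),
      Integrable ((sp (U i) '' A).indicator (ev d p)) (sig d) := by
    intro p i
    refine (integrable_cont (sig d) (ev d p)).indicator₀ ?_
    have h1 : sp (U i) '' A = (sp (U i)).symm ⁻¹' A := (sp (U i)).image_eq_preimage_symm A
    rw [h1]
    have h2 : MeasurePreserving (sp (U i)).symm (sig d) (sig d) := sp_preserving (U i).symm
    exact hA.preimage h2.quasiMeasurePreserving
  have hcomp : ∀ (p : MvPolynomial (Fin d) ℝ) (i : Fin m),
      Integrable (fun x => ev d p (sp (U i) x)) (sig d) := fun p i =>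
    integrable_cont (sig d) ((ev d p).comp ⟨sp (U i), (sp (U i)).continuous⟩)
  -- the integral of `p`
  have h1 : ∀ p : MvPolynomial (Fin d) ℝ,
      ∫ x, ev d p x ∂(sig d) = ∫ x in A, ev d (T p) x ∂(sig d) := by
    intro p
    have e1 : ∫ x, ev d p x ∂(sig d) =
        ∫ x, ∑ i, (sp (U i) '' A).indicator (ev d p) x ∂(sig d) := by
      refine integral_congr_ae ?_
      filter_upwards [hae] with x hx
      obtain ⟨i, hi, hu⟩ := hx
      rw [Finset.sum_eq_single i]
      · rw [indicator_of_mem hi]
      · intro j _ hj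
        rw [indicator_of_notMem]
        exact fun hj' => hj (hu j hj')
      · intro h
        exact absurd (Finset.mem_univ i) h
    rw [e1, integral_finsetSum _ fun i _ => hint p i]
    simp only [hpiece, hT]
    rw [integral_finsetSum _ fun i _ => (hcomp p i).integrableOn]
  have h2 : ∀ p : MvPolynomial (Fin d) ℝ,
      ∫ x, ev d (T p) x ∂(sig d) = m * ∫ x, ev d p x ∂(sig d) := by
    intro p
    simp only [hT]
    rw [integral_finsetSum _ fun i _ => hcomp p i]
    have e1 : ∀ i : Fin m, ∫ x, ev d p (sp (U i) x) ∂(sig d) = ∫ x, ev d p x ∂(sig d) := fun i =>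
      (sp_preserving (U i)).integral_comp (sp (U i)).measurableEmbedding _
    simp only [e1, Finset.sum_const, Finset.card_univ, Fintype.card_fin, nsmul_eq_mul]
  have hm0 : (0 : ℝ) < m := by
    have : (2 : ℝ) ≤ m := by exact_mod_cast hm
    linarith
  -- the two measures agree
  have h3 : (sig d).restrict A = (m : ENNReal)⁻¹ • sig d := by
    have hf : IsFiniteMeasure ((m : ENNReal)⁻¹ • sig d) := by
      refine ⟨?_⟩
      rw [Measure.smul_apply, smul_eq_mul]
      refine ENNReal.mul_lt_top ?_ (measure_lt_top _ _)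
      rw [ENNReal.inv_lt_top]
      exact_mod_cast (by omega : 0 < m)
    apply ext_poly
    intro q
    obtain ⟨p, rfl⟩ := hs q
    rw [← h1, integral_smul_measure, h2, ENNReal.toReal_inv, ENNReal.toReal_natCast, smul_eq_mul,
      ← mul_assoc, inv_mul_cancel₀ hm0.ne', one_mul]
  -- the measure of `A`
  have hne : (sig d) univ ≠ 0 := by
    have : Nontrivial (En d) := by
      have : Nonempty (Fin d) := ⟨⟨0, hd⟩⟩
      infer_instance
    rw [Ne, Measure.measure_univ_eq_zero]
    exact Measure.toSphere_ne_zero _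
  have h4 : (sig d) A = (m : ENNReal)⁻¹ * (sig d) univ := by
    have e1 := congrArg (fun μ => μ univ) h3
    simp only [Measure.restrict_apply_univ, Measure.smul_apply, smul_eq_mul] at e1
    exact e1
  have h5 : (sig d) A = (m : ENNReal)⁻¹ * (sig d) A := by
    have e1 := congrArg (fun μ => μ A) h3
    simp only [Measure.smul_apply, smul_eq_mul] at e1
    rw [← e1]
    exact (Measure.restrict_apply_self _ A).symm
  have hA0 : (sig d) A ≠ 0 := by
    rw [h4]
    refine mul_ne_zero ?_ hne
    rw [Ne, ENNReal.inv_eq_zero]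
    exact ENNReal.natCast_ne_top m
  have hAt : (sig d) A ≠ ⊤ := measure_ne_top _ _
  have h6 : ((sig d) A).toReal = (m : ℝ)⁻¹ * ((sig d) A).toReal := by
    conv_lhs => rw [h5]
    rw [ENNReal.toReal_mul, ENNReal.toReal_inv, ENNReal.toReal_natCast]
  have h7 : 0 < ((sig d) A).toReal := ENNReal.toReal_pos hA0 hAt
  have h8 : (m : ℝ)⁻¹ < 1 := by
    apply inv_lt_one_of_one_lt₀
    have : (2 : ℝ) ≤ m := by exact_mod_cast hm
    linarith
  nlinarith

end Pool.Agent.MP_f406e2_lc_SP
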