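import Mathlib

/-!
# MP_f406e2_lc: specialisation of tuples of rotations, algebraic part
-/

noncomputable section

namespace Pool.Agent.MP_f406e2_lc_SP

open MvPolynomial Matrix

/-- the polynomial `x ↦ p (g x)` -/
def lin {d : ℕ} {A : Type*} [CommRing A] (g : Matrix (Fin d) (Fin d) A)
    (p : MvPolynomial (Fin d) A) : MvPolynomial (Fin d) A :=
  bind₁ (fun j => ∑ l, C (g j l) * X l) p

/-- the polynomial `x ↦ ∑ i, p (γ i x)` -/
def tot {d m : ℕ} {A : Type*} [CommRing A] (γ : Fin m → Matrix (Fin d) (Fin d) A)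
    (p : MvPolynomial (Fin d) A) : MvPolynomial (Fin d) A :=
  ∑ i, lin (γ i) p

variable {d m : ℕ} {A B : Type*} [CommRing A] [CommRing B]

lemma lin_add (g : Matrix (Fin d) (Fin d) A) (p q : MvPolynomial (Fin d) A) :
    lin g (p + q) = lin g p + lin g q := map_add _ _ _

lemma lin_smul (g : Matrix (Fin d) (Fin d) A) (c : A) (p : MvPolynomial (Fin d) A) :
    lin g (c • p) = c • lin g p := map_smul _ _ _

lemma lin_one (p : MvPolynomial (Fin d) A) : lin (1 : Matrix (Fin d) (Fin d) A) p = p := by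
  unfold lin
  have : (fun j : Fin d => ∑ l, C ((1 : Matrix (Fin d) (Fin d) A) j l) * X l) =
      (X : Fin d → MvPolynomial (Fin d) A) := by
    funext j
    rw [Finset.sum_eq_single j]
    · simp
    · intro l _ hl
      rw [Matrix.one_apply_ne (Ne.symm hl)]
      simp
    · simp
  rw [this, bind₁_X_left]
  rfl

lemma lin_lin (g h : Matrix (Fin d) (Fin d) A) (p : MvPolynomial (Fin d) A) :
    lin h (lin g p) = lin (g * h) p := by
  unfold lin
  rw [bind₁_bind₁]
  congr 2
  funext j
  rw [map_sum]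
  simp only [map_mul, bind₁_C_right, bind₁_X_right, Finset.mul_sum]
  rw [Finset.sum_comm]
  refine Finset.sum_congr rfl fun l _ => ?_
  rw [Matrix.mul_apply, map_sum, Finset.sum_mul]
  refine Finset.sum_congr rfl fun i _ => ?_
  rw [map_mul, mul_assoc]

lemma map_lin (f : A →+* B) (g : Matrix (Fin d) (Fin d) A) (p : MvPolynomial (Fin d) A) :
    map f (lin g p) = lin (g.map f) (map f p) := by
  unfold lin
  rw [map_bind₁]
  congr 2
  funext j
  simp

lemma tot_add (γ : Fin m → Matrix (Fin d) (Fin d) A) (p q : MvPolynomial (Fin d) A) :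
    tot γ (p + q) = tot γ p + tot γ q := by
  simp only [tot, lin_add, Finset.sum_add_distrib]

lemma tot_smul (γ : Fin m → Matrix (Fin d) (Fin d) A) (c : A) (p : MvPolynomial (Fin d) A) :
    tot γ (c • p) = c • tot γ p := by
  simp only [tot, lin_smul, Finset.smul_sum]

lemma tot_zero (γ : Fin m → Matrix (Fin d) (Fin d) A) : tot γ 0 = 0 := by
  have := tot_smul γ 0 0
  simpa using this

lemma tot_sum (γ : Fin m → Matrix (Fin d) (Fin d) A) {ι : Type*} (s : Finset ι)
    (p : ι → MvPolynomial (Fin d) A) : tot γ (∑ i ∈ s, p i) = ∑ i ∈ s, tot γ (p i) := by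
  classical
  induction s using Finset.induction_on with
  | empty => simp [tot_zero]
  | insert a s ha ih => rw [Finset.sum_insert ha, tot_add, ih, Finset.sum_insert ha]

lemma map_tot (f : A →+* B) (γ : Fin m → Matrix (Fin d) (Fin d) A)
    (p : MvPolynomial (Fin d) A) :
    map f (tot γ p) = tot (fun i => (γ i).map f) (map f p) := by
  simp only [tot, map_sum, map_lin]

lemma lin_homogeneous (g : Matrix (Fin d) (Fin d) A) {p : MvPolynomial (Fin d) A} {n : ℕ}
    (hp : p.IsHomogeneous n) : (lin g p).IsHomogeneous n := by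
  unfold lin
  have h1 : ∀ j : Fin d, (∑ l, C (g j l) * X l : MvPolynomial (Fin d) A).IsHomogeneous 1 := by
    intro j
    refine IsHomogeneous.sum _ _ _ fun l _ => ?_
    have := (isHomogeneous_C (Fin d) (g j l)).mul (isHomogeneous_X A l)
    rwa [zero_add] at this
  have h2 := hp.aeval _ h1
  rw [one_mul] at h2
  exact h2

lemma tot_homogeneous (γ : Fin m → Matrix (Fin d) (Fin d) A) {p : MvPolynomial (Fin d) A}
    {n : ℕ} (hp : p.IsHomogeneous n) : (tot γ p).IsHomogeneous n :=
  IsHomogeneous.sum _ _ _ fun i _ => lin_homogeneous (γ i) hp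

/-- the exponents of degree `n` -/
abbrev Ex (d n : ℕ) : Type := ↥((Finset.univ : Finset (Fin d)).finsuppAntidiag n)

lemma mem_Ex {n : ℕ} {s : Fin d →₀ ℕ} :
    s ∈ (Finset.univ : Finset (Fin d)).finsuppAntidiag n ↔ s.degree = n := by
  rw [Finset.mem_finsuppAntidiag]
  constructor
  · rintro ⟨h, -⟩
    rw [Finsupp.degree_eq_sum]
    exact h
  · intro h
    refine ⟨?_, Finset.subset_univ _⟩
    rw [Finsupp.degree_eq_sum] at h
    exact h

/-- the matrix of `tot γ` on the monomials of degree `n` -/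
def Nm (γ : Fin m → Matrix (Fin d) (Fin d) A) (n : ℕ) : Matrix (Ex d n) (Ex d n) A :=
  fun s t => coeff s.1 (tot γ (monomial t.1 1))

lemma Nm_map (f : A →+* B) (γ : Fin m → Matrix (Fin d) (Fin d) A) (n : ℕ) :
    Nm (fun i => (γ i).map f) n = (Nm γ n).map f := by
  ext s t
  rw [Matrix.map_apply]
  unfold Nm
  rw [← coeff_map, map_tot, map_monomial, map_one f]

/-- the homogeneous polynomial with the given coefficients -/
def ofv {n : ℕ} (v : Ex d n → A) : MvPolynomial (Fin d) A := ∑ t, monomial t.1 (v t)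

lemma coeff_ofv {n : ℕ} (v : Ex d n → A) (s : Ex d n) : coeff s.1 (ofv v) = v s := by
  classical
  unfold ofv
  rw [coeff_sum, Finset.sum_eq_single s]
  · simp
  · intro t _ hts
    rw [coeff_monomial, if_neg]
    intro h
    exact hts (Subtype.ext h)
  · simp

lemma ofv_homogeneous {n : ℕ} (v : Ex d n → A) : (ofv v).IsHomogeneous n :=
  IsHomogeneous.sum _ _ _ fun t _ => isHomogeneous_monomial _ (mem_Ex.1 t.2)

lemma ofv_coeff {n : ℕ} {p : MvPolynomial (Fin d) A} (hp : p.IsHomogeneous n) :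
    ofv (fun t : Ex d n => coeff t.1 p) = p := by
  classical
  ext s
  by_cases hs : s.degree = n
  · exact coeff_ofv _ ⟨s, mem_Ex.2 hs⟩
  · rw [(ofv_homogeneous _).coeff_eq_zero hs, hp.coeff_eq_zero hs]

lemma tot_ofv {n : ℕ} (γ : Fin m → Matrix (Fin d) (Fin d) A) (v : Ex d n → A) :
    tot γ (ofv v) = ofv (Nm γ n *ᵥ v) := by
  rw [← ofv_coeff (tot_homogeneous γ (ofv_homogeneous v))]
  congr 1
  funext s
  have h1 : ofv v = ∑ t, v t • monomial t.1 (1 : A) := by
    unfold ofv
    refine Finset.sum_congr rfl fun t _ => ?_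
    rw [smul_monomial, smul_eq_mul, mul_one]
  rw [h1, tot_sum, coeff_sum]
  simp only [tot_smul, coeff_smul, smul_eq_mul, Matrix.mulVec, dotProduct, Nm]
  exact Finset.sum_congr rfl fun t _ => mul_comm _ _

theorem surj_of_inj {R : Type*} [CommRing R] {k : Type*} [Field k] {K : Type*} [Field K]
    (φ : R →+* k) (ι : R →+* K) (hι : Function.Injective ι)
    (γ : Fin m → Matrix (Fin d) (Fin d) R)
    (hinj : ∀ p : MvPolynomial (Fin d) k, tot (fun i => (γ i).map φ) p = 0 → p = 0)
    (q : MvPolynomial (Fin d) K) : ∃ p, tot (fun i => (γ i).map ι) p = q := by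
  classical
  -- the determinants do not vanish
  have hk : ∀ n, (Nm (fun i => (γ i).map φ) n).det ≠ 0 := by
    intro n h0
    obtain ⟨v, hv, hv0⟩ := Matrix.exists_mulVec_eq_zero_iff.2 h0
    apply hv
    have h1 : tot (fun i => (γ i).map φ) (ofv v) = 0 := by
      rw [tot_ofv, hv0]
      unfold ofv
      simp
    have h2 := hinj _ h1
    funext s
    rw [← coeff_ofv v s, h2]
    simp
  have hK : ∀ n, (Nm (fun i => (γ i).map ι) n).det ≠ 0 := by
    intro n h0
    rw [Nm_map, ← RingHom.mapMatrix_apply, ← RingHom.map_det, map_eq_zero_iff ι hι] at h0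
    apply hk n
    rw [Nm_map, ← RingHom.mapMatrix_apply, ← RingHom.map_det, h0, map_zero]
  -- homogeneous polynomials
  have hh : ∀ (n : ℕ) (q : MvPolynomial (Fin d) K), q.IsHomogeneous n →
      ∃ p, tot (fun i => (γ i).map ι) p = q := by
    intro n q hq
    have hu : IsUnit (Nm (fun i => (γ i).map ι) n).det := isUnit_iff_ne_zero.2 (hK n)
    refine ⟨ofv ((Nm (fun i => (γ i).map ι) n)⁻¹ *ᵥ fun t => coeff t.1 q), ?_⟩
    rw [tot_ofv, Matrix.mulVec_mulVec, Matrix.mul_nonsing_inv _ hu, Matrix.one_mulVec,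
      ofv_coeff hq]
  choose! P hP using hh
  refine ⟨∑ n ∈ Finset.range (q.totalDegree + 1), P n (homogeneousComponent n q), ?_⟩
  rw [tot_sum]
  conv_rhs => rw [← sum_homogeneousComponent q]
  exact Finset.sum_congr rfl fun n _ => hP n _ (homogeneousComponent_isHomogeneous n q)

end Pool.Agent.MP_f406e2_lc_SP
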