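import Pool.Agent.Lib.MP_f406e2_lc_SP.Alg
import Pool.Agent.Lib.MP_f406e2_lc_SP.Meas

/-!
# MP_f406e2_lc: orthogonal matrices acting on the sphere, and the main theorem
-/

noncomputable section

namespace Pool.Agent.MP_f406e2_lc_SP

open MeasureTheory Set Metric Topology MvPolynomial Matrix

variable {d : ℕ}

lemma norm_mulVec {M : Matrix (Fin d) (Fin d) ℝ} (hM : Mᵀ * M = 1) (x : En d) :
    ‖(WithLp.toLp 2 (M *ᵥ x.ofLp) : En d)‖ = ‖x‖ := by
  have h1 : ∀ y : En d, ‖y‖ ^ 2 = y.ofLp ⬝ᵥ y.ofLp := by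
    intro y
    rw [EuclideanSpace.norm_sq_eq]
    simp only [dotProduct, Real.norm_eq_abs, sq_abs]
    exact Finset.sum_congr rfl fun i _ => by ring
  have h2 : ‖(WithLp.toLp 2 (M *ᵥ x.ofLp) : En d)‖ ^ 2 = ‖x‖ ^ 2 := by
    rw [h1, h1]
    show (M *ᵥ x.ofLp) ⬝ᵥ (M *ᵥ x.ofLp) = _
    rw [Matrix.dotProduct_mulVec, Matrix.vecMul_mulVec, hM, Matrix.vecMul_one]
  exact (pow_left_inj₀ (norm_nonneg _) (norm_nonneg _) two_ne_zero).1 h2

/-- the isometry given by an orthogonal matrix -/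
def ofOrth (M : Matrix (Fin d) (Fin d) ℝ) (hM : Mᵀ * M = 1) : En d ≃ₗᵢ[ℝ] En d :=
  LinearIsometry.toLinearIsometryEquiv
    ({ toFun := fun x => WithLp.toLp 2 (M *ᵥ x.ofLp)
       map_add' := fun x y => WithLp.ofLp_injective 2 (Matrix.mulVec_add M x.ofLp y.ofLp)
       map_smul' := fun c x => WithLp.ofLp_injective 2 (Matrix.mulVec_smul M c x.ofLp)
       norm_map' := norm_mulVec hM } : En d →ₗᵢ[ℝ] En d) rfl

lemma ofOrth_apply (M : Matrix (Fin d) (Fin d) ℝ) (hM : Mᵀ * M = 1) (x : En d) :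
    (ofOrth M hM x).ofLp = M *ᵥ x.ofLp := rfl

lemma eval_lin (g : Matrix (Fin d) (Fin d) ℝ) (p : MvPolynomial (Fin d) ℝ) (v : Fin d → ℝ) :
    eval v (lin g p) = eval (g *ᵥ v) p := by
  unfold lin
  have h := aeval_bind₁ v (fun j : Fin d => ∑ l, C (g j l) * X l) p
  rw [MvPolynomial.aeval_eq_eval, MvPolynomial.aeval_eq_eval] at h
  show (RingHom.id _) _ = _
  simp only [RingHom.id_apply]
  have h2 : (fun i : Fin d => (eval v) (∑ l, C (g i l) * X l)) = g *ᵥ v := by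
    funext i
    simp [Matrix.mulVec, dotProduct]
  rw [← h2]
  exact h

/-- the sphere is divisible, up to a null set, by the matrices `g i`, with a measurable piece -/
def ADiv {m : ℕ} (g : Fin m → Matrix (Fin d) (Fin d) ℝ) : Prop :=
  ∃ A : Set (Sp d), NullMeasurableSet A (sig d) ∧
    ∀ᵐ x ∂(sig d), ∃! i : Fin m, ∃ y ∈ A, x.1.ofLp = g i *ᵥ y.1.ofLp

/-- **Specialisation.** -/
theorem specialisation {m : ℕ} (hd : 1 ≤ d) (hm : 2 ≤ m) {R : Type*} [CommRing R]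
    {k : Type*} [Field k] (ι : R →+* ℝ) (hι : Function.Injective ι) (φ : R →+* k)
    (γ : Fin m → Matrix (Fin d) (Fin d) R)
    (ho : ∀ i, ((γ i).map ι)ᵀ * (γ i).map ι = 1)
    (hinj : ∀ p : MvPolynomial (Fin d) k, tot (fun i => (γ i).map φ) p = 0 → p = 0) :
    ¬ ADiv fun i => (γ i).map ι := by
  rintro ⟨A, hA, hae⟩
  refine no_division hd hm (fun i => ofOrth ((γ i).map ι) (ho i))
    (tot fun i => (γ i).map ι) ?_ ?_ A hA ?_
  · intro p x
    rw [ev_apply]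
    unfold tot
    rw [map_sum]
    refine Finset.sum_congr rfl fun i _ => ?_
    rw [eval_lin, ev_apply]
    rfl
  · intro q
    exact surj_of_inj φ ι hι γ hinj q
  · filter_upwards [hae] with x hx
    obtain ⟨i, ⟨y, hy, h⟩, hu⟩ := hx
    refine ⟨i, ⟨y, hy, ?_⟩, ?_⟩
    · apply Subtype.ext
      apply (WithLp.ofLp_injective 2)
      rw [h]
      rfl
    · rintro j ⟨z, hz, rfl⟩
      exact hu j ⟨z, hz, rfl⟩

end Pool.Agent.MP_f406e2_lc_SP
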