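import Pool.Agent.Lib.MP_f406e2_lc_SP.Two

open MeasureTheory Matrix MvPolynomial

namespace Pool.Agent.MP_f406e2_lc_SP.SpecialisationResult

/-- The unit sphere of the Euclidean space `ℝ^d`. -/
abbrev Sphere (d : ℕ) : Type := Metric.sphere (0 : EuclideanSpace ℝ (Fin d)) 1

/-- The surface measure of the unit sphere. -/
noncomputable abbrev surface (d : ℕ) : Measure (Sphere d) :=
  (volume : Measure (EuclideanSpace ℝ (Fin d))).toSphere

/-- The tuple `g` divides the sphere up to a null set, with a Lebesgue measurable piece: for some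
measurable `A`, almost every `x` lies in exactly one of the sets `g i A`. -/
def AEDivides {d m : ℕ} (g : Fin m → Matrix (Fin d) (Fin d) ℝ) : Prop :=
  ∃ A : Set (Sphere d), NullMeasurableSet A (surface d) ∧
    ∀ᵐ x ∂(surface d), ∃! i : Fin m, ∃ y ∈ A, x.1.ofLp = g i *ᵥ y.1.ofLp

/-- The polynomial `p(g x)`, for a polynomial `p` in `x = (x_0, …, x_{d-1})` and a matrix `g`. -/
noncomputable def substitute {d : ℕ} {k : Type*} [Field k] (g : Matrix (Fin d) (Fin d) k)
    (p : MvPolynomial (Fin d) k) : MvPolynomial (Fin d) k :=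
  bind₁ (fun j => ∑ l, C (g j l) * X l) p

/-- **Specialisation.** Let `R` be a subring of `ℝ`, `φ` a homomorphism from `R` to a field `k`,
and `γ i` orthogonal matrices with entries in `R`. If no nonzero polynomial `p` over `k` satisfies
`∑ i, p (φ(γ i) x) = 0`, then the matrices `γ i` do not divide the sphere, not even up to a null
set, with a Lebesgue measurable piece. -/
theorem result {d m : ℕ} (hd : 1 ≤ d) (hm : 2 ≤ m) (R : Subring ℝ) {k : Type*} [Field k]
    (φ : R →+* k) (γ : Fin m → Matrix (Fin d) (Fin d) R) (hγ : ∀ i, (γ i)ᵀ * γ i = 1)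
    (h : ∀ p : MvPolynomial (Fin d) k, ∑ i, substitute ((γ i).map φ) p = 0 → p = 0) :
    ¬ AEDivides fun i => (γ i).map fun r : R => (r : ℝ) := by
  have key := Pool.Agent.MP_f406e2_lc_SP.specialisation hd hm R.subtype Subtype.val_injective φ γ
    (fun i => ?_) h
  · exact key
  · rw [← Matrix.transpose_map, ← Matrix.map_mul, hγ i, Matrix.map_one _ (map_zero _) (map_one _)]

end Pool.Agent.MP_f406e2_lc_SP.SpecialisationResult
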