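import Pool.Agent.Lib.MP_f406e2_lc_SP.Rot

/-!
# MP_f406e2_lc: reduction modulo two, rational matrices
-/

noncomputable section

namespace Pool.Agent.MP_f406e2_lc_SP

open MeasureTheory Set Metric Topology MvPolynomial Matrix

variable {d : ℕ}

/-- reduction modulo two -/
theorem mod_two {m : ℕ} (hd : 1 ≤ d) (hm : 2 ≤ m) {R : Type*} [CommRing R]
    {k : Type*} [Field k] [CharP k 2] (ι : R →+* ℝ) (hι : Function.Injective ι) (φ : R →+* k)
    (γ : Fin m → Matrix (Fin d) (Fin d) R)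
    (ho : ∀ i, ((γ i).map ι)ᵀ * (γ i).map ι = 1)
    (τ : Fin m → Fin m) (hτ : Function.Involutive τ) (i₀ : Fin m)
    (hfix : ∀ i, τ i = i ↔ i = i₀)
    (hred : ∀ i j l, φ (γ (τ i) j l) = φ (γ i j l)) :
    ¬ ADiv fun i => (γ i).map ι := by
  refine specialisation hd hm ι hι φ γ ho fun p hp => ?_
  have h1 : ∀ i, (γ (τ i)).map φ = (γ i).map φ := fun i => by
    ext j l
    exact hred i j l
  have h2 : tot (fun i => (γ i).map φ) p = lin ((γ i₀).map φ) p := by
    unfold tot
    rw [← Finset.add_sum_erase _ _ (Finset.mem_univ i₀)]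
    have h3 : ∑ i ∈ Finset.univ.erase i₀, lin ((γ i).map φ) p = 0 := by
      refine Finset.sum_involution (fun i _ => τ i) ?_ ?_ ?_ ?_
      · intro i _
        rw [h1 i]
        exact CharTwo.add_self_eq_zero _
      · intro i hi _ h
        exact (Finset.ne_of_mem_erase hi) ((hfix i).1 h)
      · intro i hi
        refine Finset.mem_erase.2 ⟨fun h => ?_, Finset.mem_univ _⟩
        have h4 : τ (τ i) = τ i := by
          rw [h]
          exact (hfix i₀).2 rfl
        rw [hτ i] at h4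
        exact (Finset.ne_of_mem_erase hi) ((hfix i).1 h4.symm)
      · intro i _
        exact hτ i
    rw [h3, add_zero]
  rw [h2] at hp
  have h3 : (γ i₀)ᵀ * γ i₀ = 1 := by
    have h4 : ((γ i₀)ᵀ * γ i₀).map ι = (1 : Matrix (Fin d) (Fin d) R).map ι := by
      rw [Matrix.map_mul, Matrix.transpose_map, ho i₀, Matrix.map_one ι (map_zero ι) (map_one ι)]
    exact Matrix.map_injective hι h4
  have h5 : γ i₀ * (γ i₀)ᵀ = 1 := mul_eq_one_comm.1 h3
  have h6 : (γ i₀).map φ * ((γ i₀)ᵀ).map φ = 1 := by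
    rw [← Matrix.map_mul, h5, Matrix.map_one φ (map_zero φ) (map_one φ)]
  have h7 := lin_lin ((γ i₀).map φ) (((γ i₀)ᵀ).map φ) p
  rw [h6, lin_one, hp] at h7
  rw [← h7]
  exact map_zero _

/-- the rational numbers with an odd denominator -/
def Zt : Subring ℚ where
  carrier := {q | Odd q.den}
  mul_mem' {a b} ha hb := Odd.of_dvd_nat (Odd.mul ha hb) (Rat.mul_den_dvd a b)
  one_mem' := by simp
  add_mem' {a b} ha hb := Odd.of_dvd_nat (Odd.mul ha hb) (Rat.add_den_dvd a b)
  zero_mem' := by simp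
  neg_mem' {a} ha := by simpa using ha

lemma cast_den {q : ℚ} (hq : Odd q.den) : ((q.den : ℕ) : ZMod 2) = 1 := by
  obtain ⟨n, hn⟩ := hq
  rw [hn]
  push_cast
  have h2 : (2 : ZMod 2) = 0 := by decide
  rw [h2]
  ring

/-- the residue modulo two -/
def res : Zt →+* ZMod 2 where
  toFun q := ((q.1.num : ℤ) : ZMod 2)
  map_one' := by simp
  map_mul' a b := by
    have h1 := congrArg (fun z : ℤ => (z : ZMod 2)) (Rat.mul_num_den' a.1 b.1)
    simp only [Int.cast_mul, Int.cast_natCast, cast_den a.2, cast_den b.2] at h1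
    have h2 : (((a.1 * b.1).den : ℕ) : ZMod 2) = 1 := cast_den (a * b).2
    rw [h2] at h1
    simpa using h1
  map_zero' := by simp
  map_add' a b := by
    have h1 := congrArg (fun z : ℤ => (z : ZMod 2)) (Rat.add_num_den' a.1 b.1)
    simp only [Int.cast_mul, Int.cast_add, Int.cast_natCast, cast_den a.2, cast_den b.2] at h1
    have h2 : (((a.1 + b.1).den : ℕ) : ZMod 2) = 1 := cast_den (a + b).2
    rw [h2] at h1
    simpa using h1

/-- sums of three squares modulo four -/
lemma even_of_sum {A B C n : ℤ} (h : A ^ 2 + B ^ 2 + C ^ 2 = n ^ 2) (hn : Even n) :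
    Even A ∧ Even B ∧ Even C := by
  have hsq : ∀ x : ℤ, (Even x ∧ x ^ 2 % 4 = 0) ∨ (¬ Even x ∧ x ^ 2 % 4 = 1) := by
    intro x
    rcases Int.even_or_odd x with hx | hx
    · left
      refine ⟨hx, ?_⟩
      obtain ⟨y, rfl⟩ := hx
      have : (y + y) ^ 2 = 4 * y ^ 2 := by ring
      omega
    · right
      refine ⟨Int.not_even_iff_odd.2 hx, ?_⟩
      obtain ⟨y, rfl⟩ := hx
      have : (2 * y + 1) ^ 2 = 4 * (y ^ 2 + y) + 1 := by ring
      omega
  have h0 : n ^ 2 % 4 = 0 := by
    rcases hsq n with h1 | h1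
    · exact h1.2
    · exact absurd hn h1.1
  rcases hsq A with ⟨a, a'⟩ | ⟨a, a'⟩ <;> rcases hsq B with ⟨b, b'⟩ | ⟨b, b'⟩ <;>
    rcases hsq C with ⟨c, c'⟩ | ⟨c, c'⟩ <;> first | exact ⟨a, b, c⟩ | (exfalso; omega)

lemma odd_common (n : ℕ) : ∀ (A B C : ℤ), 0 < n → A ^ 2 + B ^ 2 + C ^ 2 = (n : ℤ) ^ 2 →
    ∃ (n' : ℕ) (A' B' C' : ℤ), Odd n' ∧ A * n' = A' * n ∧ B * n' = B' * n ∧ C * n' = C' * n := by
  induction n using Nat.strong_induction_on with
  | _ n ih =>
    intro A B C hn h
    rcases Nat.even_or_odd n with he | ho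
    · obtain ⟨⟨a, rfl⟩, ⟨b, rfl⟩, ⟨c, rfl⟩⟩ := even_of_sum h (by exact_mod_cast he)
      obtain ⟨n₁, rfl⟩ := he
      have h1 : a ^ 2 + b ^ 2 + c ^ 2 = (n₁ : ℤ) ^ 2 := by
        push_cast at h
        nlinarith
      obtain ⟨n', A', B', C', h2, h3, h4, h5⟩ := ih n₁ (by omega) a b c (by omega) h1
      refine ⟨n', A', B', C', h2, ?_, ?_, ?_⟩
      · push_cast
        linear_combination 2 * h3
      · push_cast
        linear_combination 2 * h4
      · push_cast
        linear_combination 2 * h5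
    · exact ⟨n, A, B, C, ho, rfl, rfl, rfl⟩

lemma den_odd_of {q : ℚ} {n' : ℕ} {A' : ℤ} (hn : Odd n') (h : q * n' = A') : Odd q.den := by
  have h0 : (n' : ℚ) ≠ 0 := by
    have : n' ≠ 0 := by
      rintro rfl
      simp at hn
    exact_mod_cast this
  have h1 : q = (A' : ℚ) / (n' : ℤ) := by
    rw [eq_div_iff (by exact_mod_cast h0)]
    exact_mod_cast h
  have h2 : (q.den : ℤ) ∣ (n' : ℤ) := by
    rw [h1, ← Rat.divInt_eq_div]
    exact Rat.den_dvd A' n'
  have h3 : q.den ∣ n' := by exact_mod_cast h2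
  exact Odd.of_dvd_nat hn h3

/-- the coordinates of a rational unit vector in three dimensions have odd denominators -/
theorem unit_odd {a b c : ℚ} (h : a ^ 2 + b ^ 2 + c ^ 2 = 1) :
    Odd a.den ∧ Odd b.den ∧ Odd c.den := by
  have ha : (a.den : ℚ) ≠ 0 := by exact_mod_cast a.den_ne_zero
  have hb : (b.den : ℚ) ≠ 0 := by exact_mod_cast b.den_ne_zero
  have hc : (c.den : ℚ) ≠ 0 := by exact_mod_cast c.den_ne_zero
  have ea : a * a.den = a.num := Rat.mul_den_eq_num a
  have eb : b * b.den = b.num := Rat.mul_den_eq_num b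
  have ec : c * c.den = c.num := Rat.mul_den_eq_num c
  have hpos : 0 < a.den * b.den * c.den := by
    have := a.den_pos
    have := b.den_pos
    have := c.den_pos
    positivity
  have h1 : (a.num * b.den * c.den) ^ 2 + (b.num * a.den * c.den) ^ 2 +
      (c.num * a.den * b.den) ^ 2 = ((a.den * b.den * c.den : ℕ) : ℤ) ^ 2 := by
    have h2 : ((a.num : ℚ) * b.den * c.den) ^ 2 + ((b.num : ℚ) * a.den * c.den) ^ 2 +
        ((c.num : ℚ) * a.den * b.den) ^ 2 = ((a.den : ℚ) * b.den * c.den) ^ 2 := by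
      rw [← ea, ← eb, ← ec]
      linear_combination ((a.den : ℚ) * b.den * c.den) ^ 2 * h
    exact_mod_cast h2
  obtain ⟨n', A', B', C', hn, hA, hB, hC⟩ := odd_common _ _ _ _ hpos h1
  have key : ((a.den : ℚ) * b.den * c.den) ≠ 0 := mul_ne_zero (mul_ne_zero ha hb) hc
  refine ⟨den_odd_of (A' := A') hn ?_, den_odd_of (A' := B') hn ?_, den_odd_of (A' := C') hn ?_⟩
  · have h3 : ((a.num : ℚ) * b.den * c.den) * n' = A' * ((a.den : ℚ) * b.den * c.den) := by
      exact_mod_cast hA
    rw [← ea] at h3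
    apply mul_right_cancel₀ key
    linear_combination h3
  · have h3 : ((b.num : ℚ) * a.den * c.den) * n' = B' * ((a.den : ℚ) * b.den * c.den) := by
      exact_mod_cast hB
    rw [← eb] at h3
    apply mul_right_cancel₀ key
    linear_combination h3
  · have h3 : ((c.num : ℚ) * a.den * b.den) * n' = C' * ((a.den : ℚ) * b.den * c.den) := by
      exact_mod_cast hC
    rw [← ec] at h3
    apply mul_right_cancel₀ key
    linear_combination h3

/-- the entries of a rational orthogonal matrix of order three have odd denominators -/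
theorem entries_odd {g : Matrix (Fin 3) (Fin 3) ℚ} (hg : gᵀ * g = 1) (i j : Fin 3) :
    Odd (g i j).den := by
  have h1 : g 0 j ^ 2 + g 1 j ^ 2 + g 2 j ^ 2 = 1 := by
    have h2 := congrFun (congrFun hg j) j
    rw [Matrix.mul_apply, Fin.sum_univ_three, Matrix.one_apply_eq] at h2
    simp only [Matrix.transpose_apply] at h2
    rw [← h2]
    ring
  obtain ⟨h3, h4, h5⟩ := unit_odd h1
  fin_cases i
  · exact h3
  · exact h4
  · exact h5

/-- rational orthogonal matrices of order three -/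
theorem rational_three {m : ℕ} (hm : 2 ≤ m) (g : Fin m → Matrix (Fin 3) (Fin 3) ℚ)
    (hg : ∀ i, (g i)ᵀ * g i = 1) (τ : Fin m → Fin m) (hτ : Function.Involutive τ) (i₀ : Fin m)
    (hfix : ∀ i, τ i = i ↔ i = i₀)
    (hred : ∀ i j l, Even (g (τ i) j l - g i j l).num) :
    ¬ ADiv fun i => (g i).map (fun q : ℚ => (q : ℝ)) := by
  have ho : ∀ i j l, Odd (g i j l).den := fun i j l => entries_odd (hg i) j l
  have hι : Function.Injective ((Rat.castHom ℝ).comp Zt.subtype) :=
    (Rat.cast_injective).comp Subtype.val_injective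
  have key := mod_two (d := 3) (by norm_num) hm ((Rat.castHom ℝ).comp Zt.subtype) hι res
    (fun i => Matrix.of fun j l => (⟨g i j l, ho i j l⟩ : Zt)) ?_ τ hτ i₀ hfix ?_
  · exact key
  · intro i
    have h1 : (Matrix.of fun j l => (⟨g i j l, ho i j l⟩ : Zt)).map
        ((Rat.castHom ℝ).comp Zt.subtype) = (g i).map (Rat.castHom ℝ) := by
      ext j l
      rfl
    rw [h1, ← Matrix.transpose_map, ← Matrix.map_mul, hg i,
      Matrix.map_one _ (map_zero _) (map_one _)]
  · intro i j l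
    have h1 := hred i j l
    have h2 : res (⟨g (τ i) j l, ho (τ i) j l⟩ - ⟨g i j l, ho i j l⟩ : Zt) = 0 := by
      show (((g (τ i) j l - g i j l).num : ℤ) : ZMod 2) = 0
      rw [ZMod.intCast_zmod_eq_zero_iff_dvd]
      exact h1.two_dvd
    rw [map_sub, sub_eq_zero] at h2
    exact h2

end Pool.Agent.MP_f406e2_lc_SP
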